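import Pool.Agent.Helper95_PSC.Stmts
import Pool.Agent.Helper40_PSC.Tile
import Pool.Agent.Helper48_PSC.LatB
import Pool.Agent.Helper27_PSC.Par

set_option autoImplicit false

/-!
Module GifsStmt: the tiles form a graph directed iterated function system, up to null sets.
-/

namespace Pool.Agent.PSC.H21

open Pool.Agent.Helper40_Pisot MeasureTheory Pool.Agent.PSC

variable {m : ℕ}

lemma sum_count (w : List (Fin (m + 1))) : ∑ j, (w.count j : ℝ) = (w.length : ℝ) := by
  induction w with
  | nil => simp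
  | cons a w ih =>
    simp only [List.count_cons, Nat.cast_add, Finset.sum_add_distrib, ih, List.length_cons]
    simp

lemma pr_cnt (α : Fin (m + 1) → ℝ) (w : List (Fin (m + 1))) :
    pr α (cnt w) = fun i => disc α w i.castSucc := by
  funext i
  unfold pr cnt disc
  push_cast
  rw [sum_count]

lemma mem_Idx {σ : Fin (m + 1) → List (Fin (m + 1))} {n : ℕ} {i b : Fin (m + 1)} {t : ℕ} :
    (⟨b, t⟩ : (_ : Fin (m + 1)) × ℕ) ∈ Idx σ n i ↔ (it σ n [b])[t]? = some i := by
  unfold Idx
  rw [Finset.mem_sigma]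
  simp only [Finset.mem_univ, true_and, Finset.mem_filter, Finset.mem_range]
  constructor
  · exact fun h => h.2
  · intro h
    refine ⟨?_, h⟩
    by_contra hcon
    rw [List.getElem?_eq_none (by omega)] at h
    exact absurd h (by simp)

/-- the image of the tile of a parent is a reflected piece -/
lemma image_eq {σ : Fin (m + 1) → List (Fin (m + 1))}
    {M : Matrix (Fin (m + 1)) (Fin (m + 1)) ℤ} {α : Fin (m + 1) → ℝ} {x0 : ℤ → Fin (m + 1)}
    (hB : ∀ (n : ℕ) (v : Lat m), Bn M α n (pr α v) = pr α ((M ^ n).mulVec v)) (n : ℕ)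
    (G F : Face m) (t : ℕ) (h : F.1 = (M ^ n).mulVec G.1 + cnt ((it σ n [G.2]).take t)) :
    Bn M α n '' tile σ α x0 G = (fun q => pr α F.1 + ph α x0 - q) ''
      (piece σ M α (ph α x0) n ⟨G.2, t⟩ '' Rset σ α G.2) := by
  unfold tile
  rw [Set.image_image, Set.image_image]
  refine Set.image_congr fun p _ => ?_
  rw [map_sub, map_add, hB, h, Pool.Agent.Helper40_PSC.pr_add, pr_cnt]
  unfold piece Bn
  rw [Matrix.toLin'_apply, Matrix.toLin'_apply]
  abel

lemma exists_parent {σ : Fin (m + 1) → List (Fin (m + 1))}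
    {M : Matrix (Fin (m + 1)) (Fin (m + 1)) ℤ} (hdet : M.det = 1 ∨ M.det = -1) (n : ℕ)
    (F : Face m) (b : Fin (m + 1)) (t : ℕ) :
    ∃ v : Lat m, F.1 = (M ^ n).mulVec v + cnt ((it σ n [b]).take t) := by
  have hu : IsUnit (M ^ n) := by
    apply IsUnit.pow
    rw [Matrix.isUnit_iff_isUnit_det, Int.isUnit_iff]
    exact hdet
  obtain ⟨N, hN⟩ := hu
  refine ⟨((N⁻¹ : (Matrix (Fin (m + 1)) (Fin (m + 1)) ℤ)ˣ) :
    Matrix (Fin (m + 1)) (Fin (m + 1)) ℤ).mulVec (F.1 - cnt ((it σ n [b]).take t)), ?_⟩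
  rw [Matrix.mulVec_mulVec, ← hN, Units.mul_inv, Matrix.one_mulVec]
  abel

theorem gifs : GifsStmt := by
  intro m σ M r α l a0 x0 D
  obtain ⟨C, hC0, hC⟩ := disc_lang_bound D.inc D.pf
  have hp := prim_of_pf D.inc D.pf
  obtain ⟨hB1, -, -, hB4, -, hB6⟩ := Pool.Agent.PSC.H48.latB m σ M r α l a0 x0 D
  have hcomp : ∀ j, IsCompact (Rset σ α j) := fun j => isCompact_Rset D.ne hp hC j
  have hpc : ∀ (n : ℕ) (p : (_ : Fin (m + 1)) × ℕ),
      IsCompact (piece σ M α (ph α x0) n p '' Rset σ α p.1) := by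
    intro n p
    refine (hcomp p.1).image ?_
    unfold piece
    exact continuous_const.add (LinearMap.continuous_of_finiteDimensional _)
  have hr0 : 0 < r := by linarith [D.pf.one_lt]
  constructor
  · intro n F
    set c : E m := ph α x0 with hc
    set Z : Set (E m) := ⋃ p ∈ Idx σ n F.2, piece σ M α c n p '' Rset σ α p.1 with hZ
    have hsub : Rset σ α F.2 ⊆ Z := setEq D.inc D.pf D.hm D.ne hC D.fix n F.2
    -- the volumes
    have hvolle : volume Z ≤ volume (Rset σ α F.2) := by
      refine (measure_biUnion_finset_le _ _).trans ?_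
      have hfin : ∀ j, volume (Rset σ α j) ≠ ⊤ := fun j => (hcomp j).measure_lt_top.ne
      have hTfin : ∑ p ∈ Idx σ n F.2, volume (piece σ M α c n p '' Rset σ α p.1) ≠ ⊤ :=
        ENNReal.sum_ne_top.2 fun p _ => (hpc n p).measure_lt_top.ne
      rw [← ENNReal.toReal_le_toReal hTfin (hfin _)]
      rw [ENNReal.toReal_sum fun p _ => (hpc n p).measure_lt_top.ne]
      have h1 : ∀ p ∈ Idx σ n F.2, (volume (piece σ M α c n p '' Rset σ α p.1)).toReal =
          |(Bred M α n).det| * (volume (Rset σ α p.1)).toReal := by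
        intro p _
        rw [volume_piece, ENNReal.toReal_mul, ENNReal.toReal_ofReal (abs_nonneg _)]
      rw [Finset.sum_congr rfl h1, ← Finset.mul_sum]
      have h2 : ∑ p ∈ Idx σ n F.2, (volume (Rset σ α p.1)).toReal =
          ∑ j, ((M ^ n) F.2 j : ℝ) * (volume (Rset σ α j)).toReal := by
        unfold Idx
        rw [Finset.sum_sigma]
        refine Finset.sum_congr rfl fun j _ => ?_
        change ∑ s ∈ (Finset.range (it σ n [j]).length).filter
          (fun t => (it σ n [j])[t]? = some F.2), (volume (Rset σ α j)).toReal = _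
        rw [Finset.sum_const, card_filter_count, nsmul_eq_mul]
        congr 1
        have := count_it_single D.inc n j F.2
        exact_mod_cast this
      rw [h2, Pool.Agent.Helper40_PSC.vol_eig D n F.2, ← mul_assoc, det_Bred D.pf n, one_mul]
    have hnull : volume (Z \ Rset σ α F.2) = 0 := by
      rw [measure_sdiff hsub (hcomp F.2).measurableSet.nullMeasurableSet
        (hcomp F.2).measure_lt_top.ne]
      exact tsub_eq_zero_of_le hvolle
    have hae : ∀ᵐ q ∂(volume : Measure (E m)), q ∉ Z \ Rset σ α F.2 :=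
      measure_eq_zero_iff_ae_notMem.1 hnull
    have hmp := (Measure.measurePreserving_sub_left (volume : Measure (E m))
      (pr α F.1 + c)).quasiMeasurePreserving.ae hae
    filter_upwards [hmp] with y hy
    have hinv : ∀ q : E m, pr α F.1 + c - (pr α F.1 + c - q) = q := fun q => by abel
    constructor
    · rintro ⟨q, hq, rfl⟩
      have hqZ := hsub hq
      rw [hZ, Set.mem_iUnion₂] at hqZ
      obtain ⟨⟨b, t⟩, hbt, hqp⟩ := hqZ
      obtain ⟨v, hv⟩ := exists_parent (σ := σ) D.pis.det n F b t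
      refine ⟨(v, b), ⟨t, mem_Idx.1 hbt, hv⟩, ?_⟩
      rw [image_eq hB1 n (v, b) F t hv]
      exact ⟨q, hqp, rfl⟩
    · rintro ⟨G, ⟨t, ht, hv⟩, hyG⟩
      rw [image_eq hB1 n G F t hv] at hyG
      obtain ⟨q, hq, hqy⟩ := hyG
      have hqZ : q ∈ Z := by
        rw [hZ, Set.mem_iUnion₂]
        exact ⟨⟨G.2, t⟩, mem_Idx.2 ht, hq⟩
      have hyq : pr α F.1 + c - y = q := by
        rw [← hqy]
        exact hinv q
      rw [hyq] at hy
      refine ⟨q, ?_, hqy⟩
      by_contra hcon
      exact hy ⟨hqZ, hcon⟩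
  · intro n G G' F hG hG' hne
    obtain ⟨t, ht, hv⟩ := hG
    obtain ⟨t', ht', hv'⟩ := hG'
    have hpne : (⟨G.2, t⟩ : (_ : Fin (m + 1)) × ℕ) ≠ ⟨G'.2, t'⟩ := by
      intro heq
      have h1 : G.2 = G'.2 := congrArg (fun p : (_ : Fin (m + 1)) × ℕ => p.1) heq
      have h2 : t = t' := congrArg (fun p : (_ : Fin (m + 1)) × ℕ => p.2) heq
      rw [hv, ← h1, ← h2] at hv'
      have h3 := add_right_cancel hv'
      have h4 := Pool.Agent.PSC.H27.mulVec_pow_injective D.pis n h3
      exact hne (Prod.ext h4 h1)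
    have hnull := null_inter_of_sum_le (μ := (volume : Measure (E m))) (Idx σ n F.2)
      (fun p => piece σ M α (ph α x0) n p '' Rset σ α p.1)
      (fun p _ => (hpc n p).measurableSet) (fun p _ => (hpc n p).measure_lt_top.ne)
      (sum_pieces_le D.inc D.pf D.hm D.ne hC D.fix n F.2) (mem_Idx.2 ht) (mem_Idx.2 ht') hpne
    set ψ : E m → E m := fun q => pr α F.1 + ph α x0 - q with hψ
    have hψi : ∀ q, ψ (ψ q) = q := fun q => by
      simp only [hψ]
      abel
    have h5 : Bn M α n '' (tile σ α x0 G ∩ tile σ α x0 G') ⊆ ψ ⁻¹'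
        ((piece σ M α (ph α x0) n ⟨G.2, t⟩ '' Rset σ α G.2) ∩
          (piece σ M α (ph α x0) n ⟨G'.2, t'⟩ '' Rset σ α G'.2)) := by
      refine (Set.image_inter_subset _ _ _).trans ?_
      rw [image_eq hB1 n G F t hv, image_eq hB1 n G' F t' hv']
      rintro y ⟨⟨q, hq, hqy⟩, ⟨q', hq', hqy'⟩⟩
      constructor
      · have : ψ y = q := by rw [← hqy]; exact hψi q
        rw [this]
        exact hq
      · have : ψ y = q' := by rw [← hqy']; exact hψi q'
        rw [this]
        exact hq'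
    have h6 : volume (Bn M α n '' (tile σ α x0 G ∩ tile σ α x0 G')) = 0 := by
      refine measure_mono_null h5 ?_
      exact (Measure.measurePreserving_sub_left (volume : Measure (E m))
        (pr α F.1 + ph α x0)).quasiMeasurePreserving.preimage_null hnull
    rw [hB6] at h6
    rcases mul_eq_zero.1 h6 with h7 | h7
    · rw [ENNReal.ofReal_eq_zero] at h7
      have h8 : 0 < (r ^ n)⁻¹ := by positivity
      linarith
    · exact h7

end Pool.Agent.PSC.H21
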